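import Pool.Agent.L0h1.F3S.Fin
import Pool.Agent.L0h86.F3.Fin
import Pool.Agent.L0h86.E3.DensC

/-!
# The rank form of the conjecture for all quadratic twists of `X_0(36)` of root number one

`E_m` is the curve `y² = x³ + m³`, the quadratic twist by `m` of `X_0(36) : y² = x³ + 1`, with complex
multiplication by `ℤ[ω]`, `ω² + ω + 1 = 0`. The prime `2` is inert in `ℤ[ω]`. `E_{-3m}` is `3`-isogenous
to `E_m`. By the known formulas the squarefree `m` such that `E_m` has root number one are the numbers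
`d` and `-3 d`, where `d` is squarefree, prime to `3`, and either `|d| ≡ 1` modulo `4`, or `d` is even
and negative. The theorem says, for ALL these `d`:
* the group `E_d(ℚ)` is finite and `Ш(E_d/ℚ)` has no element of order two if and only if the square
  matrix `mat d` over `𝔽₂`, given by the quadratic residue symbols between the normalised prime elements
  of `ℤ[ω]` which divide `d`, is not singular;
* in this case the order of the `L`-series at `s = 1` and the rank are both `0` for `E_d` and for the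
  `3`-isogenous curve `E_{-3d}`, in the form of the frozen statement of the problem;
* the proportion of these `d` among all the `d`, ordered by `|d|`, is exactly
  `(1/2) ∏_{i ≥ 0} (1 - 2^{-(2i+1)}) = 0.2097...`.

The values `L(E_d, 1)` are computed modulo the primes over two, by sums of elliptic functions over
division points. Three classes of `d`: `|d| ≡ 1` modulo `4`, positive (`Pool/Agent/L0h86/F3`,
`Pool/Agent/L0h80/F3`, `Pool/Agent/L0h4/T3`) and negative (`Pool/Agent/L0h4/T4`,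
`Pool/Agent/L0h1/F3R/Ev4`), and `d = -2m` (`Pool/Agent/L0h86/F5`, `Pool/Agent/L0h4/T5`,
`Pool/Agent/L0h1/F5`, `Pool/Agent/L0h61/T5`), and the three curves `d = 1, -1, -2`
(`Pool/Agent/L0h1/F3S`). The 2-descent and the reciprocity laws: `Pool/Agent/L0h23/{FD,FR,FZ,FC}`; the
converse of the descent and the linear algebra: `Pool/Agent/L0h4/T3`, `Pool/Agent/L0h61/{T3,T4,T5}`; the
density: `Pool/Agent/L0h74/{T3,E3}`, `Pool/Agent/L0h75/E3`, `Pool/Agent/L0h86/{F3,E3}`; rank form and
3-isogeny: `Pool/Agent/L0h1/{F3R,F3S}`. Joint work of helpers 1, 4, 23, 61, 74, 75, 80, 86.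
-/

set_option autoImplicit false

open scoped Classical

namespace Pool.Agent.Results.MP_696deb_nt.AllTwistsX36ExactProportion

/-- the conclusion of the frozen statement for `y² = x³ + a x + b`, together with the fact that the
order of vanishing and the rank are both `0` -/
def BSDRankZero (a b : ℤ) : Prop :=
  4 * a ^ 3 + 27 * b ^ 2 ≠ 0 ∧
    ∃ F : ℂ → ℂ, Differentiable ℂ F ∧
      (∀ s : ℂ, (3 : ℝ) / 2 < s.re →
        HasProd
          (fun p : ℕ => open Classical in
            if p.Prime ∧ ¬ ((p : ℤ) ∣ 2 * (-4 * a ^ 3 - 27 * b ^ 2)) then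
              (1 - ((p : ℂ) - (Nat.card {q : ZMod p × ZMod p //
                  q.2 ^ 2 = q.1 ^ 3 + (a : ZMod p) * q.1 + (b : ZMod p)} : ℂ))
                  * (p : ℂ) ^ (-s) + (p : ℂ) ^ (1 - 2 * s))⁻¹
            else 1)
          (F s)) ∧
      analyticOrderAt F 1 =
        ((Module.finrank ℤ
          (WeierstrassCurve.Affine.Point
            (WeierstrassCurve.toAffine
              ({ a₁ := 0, a₂ := 0, a₃ := 0, a₄ := (a : ℚ), a₆ := (b : ℚ) } :
                WeierstrassCurve ℚ))) : ℕ) : ℕ∞) ∧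
      Module.finrank ℤ
        (WeierstrassCurve.Affine.Point
          (WeierstrassCurve.toAffine
            ({ a₁ := 0, a₂ := 0, a₃ := 0, a₄ := (a : ℚ), a₆ := (b : ℚ) } :
              WeierstrassCurve ℚ))) = 0

/-- `d` is squarefree, prime to `3`, and either `|d| ≡ 1` modulo `4`, or `d` is even and negative. -/
def Adm (d : ℤ) : Prop := Squarefree d ∧ ¬ 3 ∣ d ∧ (|d| % 4 = 1 ∨ d < 0 ∧ 2 ∣ d)

/-- The curve `y² = x³ + m³`, the quadratic twist by `m` of `y² = x³ + 1`. -/
def E (m : ℤ) : WeierstrassCurve ℚ := { a₁ := 0, a₂ := 0, a₃ := 0, a₄ := 0, a₆ := (m : ℚ) ^ 3 }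

/-- `E_m(ℚ)` is finite and `Ш(E_m/ℚ)[2] = 0`. -/
def TrivialTwo (m : ℤ) : Prop :=
  Finite (E m).toAffine.Point ∧ ∀ x : Pool.Agent.TH841.NF.D.Sha (E m), x + x = 0 → x = 0

/-- The cube root of unity `(-1 + √-3) / 2`. -/
noncomputable def om : ℂ := ⟨-1 / 2, Real.sqrt 3 / 2⟩

/-- The ring `ℤ[ω]` of the integers of `K = ℚ(√-3)`, as a subring of `ℂ`: its elements are the numbers
`x + y ω`, `x, y ∈ ℤ` (see `mem_O`). -/
noncomputable abbrev O : Subring ℂ := Pool.Agent.Y696.eis

lemma mem_O (z : ℂ) : z ∈ O ↔ ∃ x y : ℤ, z = x + y * om := Iff.rfl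

/-- The element `ω` of `ℤ[ω]`. -/
noncomputable def ω : O := ⟨om, (mem_O om).2 ⟨0, 1, by push_cast; ring⟩⟩

/-- The element `√-3 = 1 + 2 ω` of `ℤ[ω]`. -/
noncomputable def rt : O := ((1 : ℤ) : O) + ((2 : ℤ) : O) * ω

/-- The complex conjugation of `ℤ[ω]`. -/
noncomputable def conj (z : O) : O := ⟨(starRingEnd ℂ) z, Pool.Agent.Y696.conj_mem z.2⟩

/-- The generators of the prime ideals of `ℤ[ω]` which divide `D`, except `(2)`, for `D` prime to `3`:
each of these ideals has exactly one generator `π` congruent to `1` modulo `2 √-3`. -/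
def primes (D : ℕ) : Set O := {π | D ≠ 0 ∧ Prime π ∧ π ∣ (D : O) ∧ 2 * rt ∣ π - 1}

noncomputable instance (D : ℕ) : Fintype (primes D) := Pool.Agent.L0h86.F3.inst_pset D

/-- `1` if `x` is not a square modulo `y`, and `0` if it is. -/
noncomputable def nonsq (x y : O) : ZMod 2 := if ∃ z : O, y ∣ x - z ^ 2 then 0 else 1

/-- `1` if `√-3 (D / y)` is not a square modulo `y`, and `0` if it is, for `y` dividing `D`. -/
noncomputable def diag (D : ℕ) (y : O) : ZMod 2 :=
  if ∃ u z : O, (D : O) = y * u ∧ y ∣ rt * u - z ^ 2 then 0 else 1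

/-- The matrix of `d` over the field with two elements. Its rows and columns are indexed by the
generators and by one more index `none`. The entry at `(x, x)` is `diag |d| x`, and the entry at `(x, y)`
for `x ≠ y` is `nonsq y x`, to which `nonsq (-1) x` is added if `y` is the conjugate of `x`. If `d` is
even, the entries at `(x, none)`, `(none, x)` and `(none, none)` are `nonsq (-2) x`, `nonsq √-3 x` and
`1` or `0` according as `|d| ≡ 2` modulo `8` or not. If `d` is odd, they are `0`, `0` and `1`. -/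
noncomputable def mat (d : ℤ) :
    Matrix (Option (primes d.natAbs)) (Option (primes d.natAbs)) (ZMod 2) := Matrix.of fun i j =>
  match i, j with
  | some x, some y => if x = y then diag d.natAbs x else
      nonsq y x + if (y : O) = conj x then nonsq (-1) x else 0
  | some x, none => if 2 ∣ d then nonsq (-2) x else 0
  | none, some y => if 2 ∣ d then nonsq rt y else 0
  | none, none => if 2 ∣ d then (if |d| % 8 = 2 then 1 else 0) else 1

/-! ### the determinant -/

/-- a matrix with a trivial border -/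
lemma det_border {α R : Type*} [Fintype α] [DecidableEq α] [CommRing R]
    (M : Matrix (Option α) (Option α) R) (N : Matrix α α R) (h1 : ∀ i j, M (some i) (some j) = N i j)
    (h2 : ∀ i, M (some i) none = 0) (h3 : ∀ j, M none (some j) = 0) (h4 : M none none = 1) :
    M.det = N.det := by
  rw [← Matrix.det_submatrix_equiv_self (Equiv.optionEquivSumPUnit.{0} α).symm M]
  have e : M.submatrix (Equiv.optionEquivSumPUnit.{0} α).symm (Equiv.optionEquivSumPUnit.{0} α).symm =
      Matrix.fromBlocks N 0 0 1 := by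
    ext i j
    rcases i with i | i <;> rcases j with j | j
    · exact h1 i j
    · exact h2 i
    · exact h3 j
    · show M none none = (1 : Matrix PUnit PUnit R) i j
      rw [h4, Subsingleton.elim i j, Matrix.one_apply_eq]
  rw [e, Matrix.det_fromBlocks_zero₂₁, Matrix.det_one, mul_one]

lemma mat_odd {d : ℤ} (h : ¬ 2 ∣ d) :
    (mat d).det ≠ 0 ↔ (Pool.Agent.L0h86.F3.mM d.natAbs).det ≠ 0 := by
  have e := det_border (mat d) (Pool.Agent.L0h86.F3.mM d.natAbs) (fun i j => rfl)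
    (fun i => by
      show (if 2 ∣ d then nonsq (-2) i else 0) = 0
      rw [if_neg h])
    (fun j => by
      show (if 2 ∣ d then nonsq rt j else 0) = 0
      rw [if_neg h])
    (by
      show (if 2 ∣ d then (if |d| % 8 = 2 then (1 : ZMod 2) else 0) else 1) = 1
      rw [if_neg h])
  have e2 := congrArg (fun y : ZMod 2 => y ≠ 0) e
  exact Iff.of_eq e2

lemma mat_even {d : ℤ} (h : 2 ∣ d) :
    (mat d).det ≠ 0 ↔ (Pool.Agent.L0h4.T5.mC d.natAbs).det ≠ 0 := by
  have e : mat d = Pool.Agent.L0h4.T5.mC d.natAbs := by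
    refine Matrix.ext fun i j => ?_
    rcases i with _ | i <;> rcases j with _ | j
    · show (if 2 ∣ d then (if |d| % 8 = 2 then (1 : ZMod 2) else 0) else 1) =
        if d.natAbs % 8 = 2 then 1 else 0
      rw [if_pos h]
      have h2 : |d| % 8 = 2 ↔ d.natAbs % 8 = 2 := by
        rw [Int.abs_eq_natAbs]
        omega
      simp only [h2]
    · show (if 2 ∣ d then nonsq rt j else 0) = _
      rw [if_pos h]
      rfl
    · show (if 2 ∣ d then nonsq (-2) i else 0) = _
      rw [if_pos h]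
      rfl
    · rfl
  rw [e]
  rfl

/-! ### the classes -/

lemma E_pos (D : ℕ) : E D = Pool.Agent.L0h86.F1.WM ℚ D := by
  unfold E Pool.Agent.L0h86.F1.WM
  push_cast
  rfl

lemma E_neg (D : ℕ) : E (-(D : ℤ)) = Pool.Agent.L0h4.T4.WN ℚ D := by
  unfold E Pool.Agent.L0h4.T4.WN
  ext
  · rfl
  · rfl
  · rfl
  · rfl
  · push_cast
    ring

lemma E_even (m : ℕ) : E (-2 * (m : ℤ)) = Pool.Agent.L0h4.T4.WC ℚ m := by
  unfold E Pool.Agent.L0h4.T4.WC
  ext
  · rfl
  · rfl
  · rfl
  · rfl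
  · push_cast
    ring

open Pool.Agent.L0h86.F1 (AdmM)
open Pool.Agent.L0h4.T4 (AdmC)

/-- the three classes -/
lemma adm_cases {d : ℤ} (h : Adm d) :
    (∃ D : ℕ, AdmM D ∧ (d = D ∨ d = -D)) ∨ ∃ m : ℕ, AdmC m ∧ d = -2 * m := by
  obtain ⟨h2, h3, h4⟩ := h
  rw [Int.abs_eq_natAbs] at h4
  have h5 := Int.squarefree_natAbs.2 h2
  rcases h4 with h4 | ⟨h4, h6⟩
  · left
    refine ⟨d.natAbs, ⟨h5, by omega, fun h7 => h3 ?_⟩, by omega⟩
    exact Int.natCast_dvd.2 h7
  · right
    obtain ⟨k, hk⟩ := h6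
    obtain ⟨m, hm⟩ : ∃ m : ℕ, k = -(m : ℤ) := ⟨k.natAbs, by omega⟩
    have hd : d = -2 * m := by rw [hk, hm]; ring
    have hn : d.natAbs = 2 * m := by omega
    rw [hn] at h5
    refine ⟨m, ⟨h5.of_mul_right, ?_, fun h7 => h3 ?_⟩, hd⟩
    · by_contra h7
      have h8 : m % 2 = 0 := by omega
      have h9 : 2 * 2 ∣ 2 * m := Nat.mul_dvd_mul_left 2 (Nat.dvd_of_mod_eq_zero h8)
      have h10 := h5 2 h9
      exact absurd (Nat.isUnit_iff.1 h10) (by norm_num)
    · rw [hd]
      exact Dvd.dvd.mul_left (by exact_mod_cast h7) _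

lemma adm_of_M {D : ℕ} (h : AdmM D) {d : ℤ} (hd : d = D ∨ d = -D) : Adm d := by
  have h4 := h.m4
  have hn : d.natAbs = D := by omega
  have ha : |d| = (D : ℤ) := by rw [Int.abs_eq_natAbs, hn]
  refine ⟨?_, ?_, Or.inl (by omega)⟩
  · rw [← Int.squarefree_natAbs, hn]
    exact h.sf
  · intro h7
    exact h.n3 (hn ▸ Int.natCast_dvd.1 h7)

lemma adm_of_C {m : ℕ} (h : AdmC m) : Adm (-2 * m) := by
  have h4 := h.m2
  have hn : (-2 * (m : ℤ)).natAbs = 2 * m := by omega
  refine ⟨?_, ?_, Or.inr ⟨by omega, ⟨-m, by ring⟩⟩⟩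
  · rw [← Int.squarefree_natAbs, hn, Nat.squarefree_mul_iff]
    exact ⟨(Nat.coprime_two_left).2 (Nat.odd_iff.2 h4), Nat.prime_two.squarefree, h.sf⟩
  · intro h7
    have h8 := Int.natCast_dvd.1 h7
    rw [hn] at h8
    exact h.n3 ((Nat.Coprime.dvd_mul_left (by norm_num : Nat.Coprime 3 2)).1 h8)

lemma odd_of_M {D : ℕ} (h : AdmM D) {d : ℤ} (hd : d = D ∨ d = -D) : ¬ 2 ∣ d := by
  have := h.m4
  omega

/-- **the criterion** -/
theorem two {d : ℤ} (h : Adm d) : TrivialTwo d ↔ (mat d).det ≠ 0 := by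
  rcases adm_cases h with ⟨D, h2, h3⟩ | ⟨m, h2, h3⟩
  · have hn : d.natAbs = D := by omega
    rw [mat_odd (odd_of_M h2 h3), hn]
    unfold TrivialTwo
    rcases h3 with rfl | rfl
    · rw [E_pos]
      exact Pool.Agent.L0h1.F3S.tt_M h2
    · rw [E_neg]
      exact Pool.Agent.L0h1.F3S.tt_N h2
  · have hn : d.natAbs = 2 * m := by omega
    rw [mat_even ⟨-m, by rw [h3]; ring⟩, hn]
    unfold TrivialTwo
    rw [h3, E_even]
    exact Pool.Agent.L0h1.F3R.tt_mC h2

lemma bsd_of {m : ℤ} (hm0 : m ≠ 0) (h : Pool.Agent.L0h1.F3R.RZ m) : BSDRankZero 0 (m ^ 3) := by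
  obtain ⟨F, h1, h3, h4, h5⟩ := h
  have h6 := Pool.Agent.L0h1.KD.finrank_zero h5
  refine ⟨?_, F, h1, ?_, ?_, h6⟩
  · have e : (4 * (0 : ℤ) ^ 3 + 27 * (m ^ 3) ^ 2 : ℤ) = 27 * m ^ 6 := by ring
    rw [e]
    exact mul_ne_zero (by norm_num) (pow_ne_zero _ hm0)
  · intro s hs
    have := h3 s hs
    unfold Pool.Agent.L0h1.KD.tg at this
    exact this
  · rw [h6, (h1.analyticAt 1).analyticOrderAt_eq_zero.2 h4]
    rfl

theorem bsd {d : ℤ} (h : Adm d) (h2 : (mat d).det ≠ 0) {n : ℤ} (hn : n = d ∨ n = -3 * d) :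
    BSDRankZero 0 (n ^ 3) := by
  have hd0 : d ≠ 0 := h.1.ne_zero
  have key : Pool.Agent.L0h1.F3R.RZ d := by
    rcases adm_cases h with ⟨D, h3, h4⟩ | ⟨m, h3, h4⟩
    · have hnd : d.natAbs = D := by omega
      rw [mat_odd (odd_of_M h3 h4), hnd] at h2
      rcases h4 with rfl | rfl
      · exact Pool.Agent.L0h1.F3S.RZ_M h3 h2
      · exact Pool.Agent.L0h1.F3S.RZ_N h3 h2
    · have hnd : d.natAbs = 2 * m := by omega
      rw [mat_even ⟨-m, by rw [h4]; ring⟩, hnd] at h2
      rw [h4]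
      exact Pool.Agent.L0h1.F3S.RZ_C h3 h2
  rcases hn with rfl | rfl
  · exact bsd_of hd0 key
  · exact bsd_of (mul_ne_zero (by norm_num) hd0) (Pool.Agent.L0h1.F3R.RZ_three hd0 key)

/-! ### the proportion -/

/-- a mean of two proportions with the same limit -/
lemma mediant {a b a' b' : ℕ → ℝ} {c : ℝ}
    (h : Filter.Tendsto (fun n => a n / b n) Filter.atTop (nhds c))
    (h' : Filter.Tendsto (fun n => a' n / b' n) Filter.atTop (nhds c))
    (hb : ∀ᶠ n in Filter.atTop, 0 < b n) (hb' : ∀ᶠ n in Filter.atTop, 0 < b' n) :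
    Filter.Tendsto (fun n => (2 * a n + a' n) / (2 * b n + b' n)) Filter.atTop (nhds c) := by
  rw [tendsto_iff_norm_sub_tendsto_zero] at h h' ⊢
  have h0 := h.add h'
  rw [add_zero] at h0
  refine squeeze_zero' (Filter.Eventually.of_forall fun n => norm_nonneg _) ?_ h0
  filter_upwards [hb, hb'] with n h1 h2
  have h3 : (2 * a n + a' n) / (2 * b n + b' n) - c =
      2 * b n / (2 * b n + b' n) * (a n / b n - c) +
        b' n / (2 * b n + b' n) * (a' n / b' n - c) := by
    have h4 : 2 * b n + b' n ≠ 0 := by positivity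
    field_simp
    ring
  rw [h3]
  refine (norm_add_le _ _).trans (add_le_add ?_ ?_)
  · rw [norm_mul]
    refine mul_le_of_le_one_left (norm_nonneg _) ?_
    rw [Real.norm_of_nonneg (by positivity), div_le_one (by positivity)]
    linarith
  · rw [norm_mul]
    refine mul_le_of_le_one_left (norm_nonneg _) ?_
    rw [Real.norm_of_nonneg (by positivity), div_le_one (by positivity)]
    linarith

/-- adding a constant -/
lemma add_const {a b : ℕ → ℝ} {c : ℝ} (k : ℝ)
    (h : Filter.Tendsto (fun n => a n / b n) Filter.atTop (nhds c))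
    (hb : Filter.Tendsto b Filter.atTop Filter.atTop) :
    Filter.Tendsto (fun n => (a n + k) / (b n + k)) Filter.atTop (nhds c) := by
  have h1 : Filter.Tendsto (fun n => k / b n) Filter.atTop (nhds 0) := hb.const_div_atTop k
  have h2 := (h.add h1).div (h1.const_add 1) (by norm_num)
  rw [add_zero, add_zero, div_one] at h2
  refine h2.congr' ?_
  filter_upwards [hb.eventually_gt_atTop 0, hb.eventually_gt_atTop (-k)] with n h3 h4
  have h5 : b n + k ≠ 0 := by linarith
  have h6 : b n ≠ 0 := h3.ne'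
  show (a n / b n + k / b n) / (1 + k / b n) = (a n + k) / (b n + k)
  field_simp

/-- the number of the elements of an infinite set -/
lemma count_tends {S : ℕ → Prop} (h : {n | S n}.Infinite) (h0 : ∀ n, S n → 1 ≤ n) :
    Filter.Tendsto (fun X : ℕ => (((Finset.Icc 1 X).filter fun n => S n).card : ℝ)) Filter.atTop
      Filter.atTop := by
  refine tendsto_natCast_atTop_atTop.comp (Filter.tendsto_atTop_atTop_of_monotone ?_ ?_)
  · intro X Y hXY
    exact Finset.card_le_card (Finset.filter_subset_filter _ (Finset.Icc_subset_Icc_right hXY))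
  · intro b
    obtain ⟨t, ht, hb⟩ := h.exists_subset_card_eq b
    refine ⟨t.sup id, ?_⟩
    rw [← hb]
    refine Finset.card_le_card fun n hn => ?_
    rw [Finset.mem_filter, Finset.mem_Icc]
    exact ⟨⟨h0 n (ht hn), Finset.le_sup (f := id) hn⟩, ht hn⟩

lemma inf_M : {D : ℕ | 1 < D ∧ AdmM D}.Infinite := by
  refine (Nat.infinite_setOfPred_prime_modEq_one (k := 12) (by norm_num)).mono ?_
  rintro p ⟨hp, h1⟩
  have h2 : p % 12 = 1 := h1
  exact ⟨hp.one_lt, hp.squarefree, by omega, by omega⟩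

/-- the number of the `d` -/
lemma card_split {R : ℤ → Prop} {A C : ℕ → Prop}
    (hA : ∀ D : ℕ, AdmM D → (R D ↔ A D) ∧ (R (-D) ↔ A D))
    (hC : ∀ m : ℕ, AdmC m → (R (-2 * m) ↔ C m)) (hA1 : A 1) (hC1 : C 1) {X : ℕ} (hX : 2 ≤ X) :
    ((Finset.Icc (-(X : ℤ)) X).filter fun d => Adm d ∧ R d).card =
      2 * ((Finset.Icc 1 X).filter fun D => (1 < D ∧ AdmM D) ∧ A D).card +
      ((Finset.Icc 1 (X / 2)).filter fun m => (1 < m ∧ AdmC m) ∧ C m).card + 3 := by
  have a1 : AdmM 1 := Pool.Agent.L0h1.F3S.adm1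
  have c1 : AdmC 1 := Pool.Agent.L0h1.F3S.admC1
  set SA := (Finset.Icc 1 X).filter fun D => AdmM D ∧ A D with hSA
  set SC := (Finset.Icc 1 (X / 2)).filter fun m => AdmC m ∧ C m with hSC
  have e : ((Finset.Icc (-(X : ℤ)) X).filter fun d => Adm d ∧ R d) =
      (SA.image fun D : ℕ => (D : ℤ)) ∪ ((SA.image fun D : ℕ => -(D : ℤ)) ∪
        SC.image fun m : ℕ => -2 * (m : ℤ)) := by
    ext d
    simp only [Finset.mem_filter, Finset.mem_union, Finset.mem_image, Finset.mem_Icc, hSA, hSC]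
    constructor
    · rintro ⟨⟨h1, h2⟩, h3, h4⟩
      rcases adm_cases h3 with ⟨D, h6, h7 | h7⟩ | ⟨m, h6, h7⟩
      · left
        have := h6.m4
        exact ⟨D, ⟨⟨by omega, by omega⟩, h6, (hA D h6).1.1 (h7 ▸ h4)⟩, h7.symm⟩
      · right
        left
        have := h6.m4
        exact ⟨D, ⟨⟨by omega, by omega⟩, h6, (hA D h6).2.1 (h7 ▸ h4)⟩, h7.symm⟩
      · right
        right
        have := h6.m2
        exact ⟨m, ⟨⟨by omega, by omega⟩, h6, (hC m h6).1 (h7 ▸ h4)⟩, h7.symm⟩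
    · rintro (⟨D, ⟨⟨h1, h2⟩, h4, h5⟩, h6⟩ | ⟨D, ⟨⟨h1, h2⟩, h4, h5⟩, h6⟩ |
        ⟨m, ⟨⟨h1, h2⟩, h4, h5⟩, h6⟩)
      · subst h6
        exact ⟨⟨by omega, by omega⟩, adm_of_M h4 (Or.inl rfl), (hA D h4).1.2 h5⟩
      · subst h6
        exact ⟨⟨by omega, by omega⟩, adm_of_M h4 (Or.inr rfl), (hA D h4).2.2 h5⟩
      · subst h6
        exact ⟨⟨by omega, by omega⟩, adm_of_C h4, (hC m h4).2 h5⟩
  have hd1 : Disjoint (SA.image fun D : ℕ => (D : ℤ)) ((SA.image fun D : ℕ => -(D : ℤ)) ∪
        SC.image fun m : ℕ => -2 * (m : ℤ)) := by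
    rw [Finset.disjoint_left]
    intro d h1 h2
    obtain ⟨D, h3, rfl⟩ := Finset.mem_image.1 h1
    have h4 := (Finset.mem_filter.1 h3).2.1.m4
    rcases Finset.mem_union.1 h2 with h5 | h5
    · obtain ⟨D', h6, h7⟩ := Finset.mem_image.1 h5
      omega
    · obtain ⟨D', h6, h7⟩ := Finset.mem_image.1 h5
      omega
  have hd2 : Disjoint (SA.image fun D : ℕ => -(D : ℤ)) (SC.image fun m : ℕ => -2 * (m : ℤ)) := by
    rw [Finset.disjoint_left]
    intro d h1 h2
    obtain ⟨D, h3, rfl⟩ := Finset.mem_image.1 h1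
    have h4 := (Finset.mem_filter.1 h3).2.1.m4
    obtain ⟨D', h6, h7⟩ := Finset.mem_image.1 h2
    omega
  have r1 : SA.card = ((Finset.Icc 1 X).filter fun D => (1 < D ∧ AdmM D) ∧ A D).card + 1 := by
    have e1 : SA = insert 1 ((Finset.Icc 1 X).filter fun D => (1 < D ∧ AdmM D) ∧ A D) := by
      ext D
      rw [hSA, Finset.mem_insert, Finset.mem_filter, Finset.mem_filter, Finset.mem_Icc]
      constructor
      · rintro ⟨⟨h1, h2⟩, h3, h4⟩
        by_cases h5 : D = 1
        · exact Or.inl h5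
        · exact Or.inr ⟨⟨h1, h2⟩, ⟨by omega, h3⟩, h4⟩
      · rintro (rfl | ⟨h1, ⟨h2, h3⟩, h4⟩)
        · exact ⟨⟨le_rfl, by omega⟩, a1, hA1⟩
        · exact ⟨h1, h3, h4⟩
    rw [e1, Finset.card_insert_of_notMem]
    intro h
    have := (Finset.mem_filter.1 h).2.1.1
    omega
  have r2 : SC.card =
      ((Finset.Icc 1 (X / 2)).filter fun m => (1 < m ∧ AdmC m) ∧ C m).card + 1 := by
    have e1 : SC = insert 1 ((Finset.Icc 1 (X / 2)).filter fun m => (1 < m ∧ AdmC m) ∧ C m) := by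
      ext D
      rw [hSC, Finset.mem_insert, Finset.mem_filter, Finset.mem_filter, Finset.mem_Icc]
      constructor
      · rintro ⟨⟨h1, h2⟩, h3, h4⟩
        by_cases h5 : D = 1
        · exact Or.inl h5
        · exact Or.inr ⟨⟨h1, h2⟩, ⟨by omega, h3⟩, h4⟩
      · rintro (rfl | ⟨h1, ⟨h2, h3⟩, h4⟩)
        · exact ⟨⟨le_rfl, by omega⟩, c1, hC1⟩
        · exact ⟨h1, h3, h4⟩
    rw [e1, Finset.card_insert_of_notMem]
    intro h
    have := (Finset.mem_filter.1 h).2.1.1
    omega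
  rw [e, Finset.card_union_of_disjoint hd1, Finset.card_union_of_disjoint hd2,
    Finset.card_image_of_injective _ (fun a b h => by simpa using h),
    Finset.card_image_of_injective _ (fun a b h => by simpa using h),
    Finset.card_image_of_injective _ (fun a b h => by simpa using h), r1, r2]
  ring

lemma mat_pos {D : ℕ} (h : AdmM D) {d : ℤ} (hd : d = D ∨ d = -D) :
    (mat d).det ≠ 0 ↔ (Pool.Agent.L0h86.F3.mM D).det ≠ 0 := by
  have hn : d.natAbs = D := by omega
  rw [mat_odd (odd_of_M h hd), hn]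

lemma mat_C {m : ℕ} : (mat (-2 * (m : ℤ))).det ≠ 0 ↔ (Pool.Agent.L0h4.T5.mC (2 * m)).det ≠ 0 := by
  have hn : (-2 * (m : ℤ)).natAbs = 2 * m := by omega
  rw [mat_even ⟨-m, by ring⟩, hn]

/-- no prime element divides `1` -/
lemma emp_one : IsEmpty (Pool.Agent.L0h86.F3.pset 1) :=
  ⟨fun x => x.2.2.1.not_isUnit (isUnit_of_dvd_one (by simpa using x.2.2.2.1))⟩

lemma det_M1 : (Pool.Agent.L0h86.F3.mM 1).det ≠ 0 := by
  have := emp_one
  rw [Matrix.det_isEmpty]
  exact one_ne_zero

lemma det_C1 : (Pool.Agent.L0h4.T5.mC (2 * 1)).det ≠ 0 := by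
  have h0 : IsEmpty (Pool.Agent.L0h86.F3.pset (2 * 1)) := by
    have h1 := emp_one
    rw [← Pool.Agent.L0h4.T5.pset_two 1] at h1
    exact h1
  rw [det_border (Pool.Agent.L0h4.T5.mC (2 * 1)) (0 : Matrix _ _ (ZMod 2))
    (fun i _ => h0.elim i) (fun i => h0.elim i) (fun i => h0.elim i) (by
      show (if 2 * 1 % 8 = 2 then (1 : ZMod 2) else 0) = 1
      exact if_pos (by norm_num)),
    Matrix.det_isEmpty]
  exact one_ne_zero

theorem dens : Filter.Tendsto (fun X : ℕ =>
      (((Finset.Icc (-(X : ℤ)) X).filter fun d => Adm d ∧ (mat d).det ≠ 0).card : ℝ) /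
      (((Finset.Icc (-(X : ℤ)) X).filter fun d => Adm d).card : ℝ)) Filter.atTop
      (nhds ((∏' i : ℕ, (1 - (1 / 2 : ℝ) ^ (2 * i + 1))) / 2)) := by
  have hA := Pool.Agent.L0h86.F3.densM (R := fun D => (Pool.Agent.L0h86.F3.mM D).det ≠ 0)
    fun D _ _ => Iff.rfl
  have hC := (Pool.Agent.L0h86.E3.t_densC
    (R := fun m => (Pool.Agent.L0h4.T5.mC (2 * m)).det ≠ 0) fun m _ _ => Iff.rfl).comp
    (Nat.tendsto_div_const_atTop two_ne_zero)
  have hb : ∀ X : ℕ, 5 ≤ X → 0 < ((Finset.Icc 1 X).filter fun D => 1 < D ∧ AdmM D).card :=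
    fun X hX => Finset.card_pos.2 ⟨5, Finset.mem_filter.2 ⟨Finset.mem_Icc.2 ⟨by norm_num, hX⟩,
      by norm_num, (by norm_num : Nat.Prime 5).squarefree, by norm_num, by norm_num⟩⟩
  have hb' : ∀ X : ℕ, 5 ≤ X → 0 < ((Finset.Icc 1 X).filter fun m => 1 < m ∧ AdmC m).card :=
    fun X hX => Finset.card_pos.2 ⟨5, Finset.mem_filter.2 ⟨Finset.mem_Icc.2 ⟨by norm_num, hX⟩,
      by norm_num, (by norm_num : Nat.Prime 5).squarefree, by norm_num, by norm_num⟩⟩
  have key := mediant hA hC (by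
      filter_upwards [Filter.eventually_ge_atTop 5] with X hX
      exact_mod_cast hb X hX) (by
      filter_upwards [Filter.eventually_ge_atTop 10] with X hX
      exact_mod_cast hb' (X / 2) (by omega))
  have hinf : Filter.Tendsto (fun X : ℕ =>
      (((Finset.Icc 1 X).filter fun D => 1 < D ∧ AdmM D).card : ℝ)) Filter.atTop Filter.atTop := by
    convert count_tends inf_M fun n h => h.1.le
  have key2 := add_const 3 key (Filter.tendsto_atTop_mono (fun X => by
    beta_reduce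
    have h1 : (0 : ℝ) ≤ (((Finset.Icc 1 X).filter fun D => 1 < D ∧ AdmM D).card : ℝ) :=
      Nat.cast_nonneg _
    have h2 : (0 : ℝ) ≤ (((Finset.Icc 1 (X / 2)).filter fun m => 1 < m ∧ AdmC m).card : ℝ) :=
      Nat.cast_nonneg _
    linarith) hinf)
  refine key2.congr' ?_
  filter_upwards [Filter.eventually_ge_atTop 2] with X hX
  refine congrArg₂ (fun a b : ℝ => a / b) ?_ ?_
  · have h1 := congrArg (Nat.cast (R := ℝ)) (card_split (R := fun d => (mat d).det ≠ 0)
      (A := fun D => (Pool.Agent.L0h86.F3.mM D).det ≠ 0)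
      (C := fun m => (Pool.Agent.L0h4.T5.mC (2 * m)).det ≠ 0)
      (fun D h2 => ⟨mat_pos h2 (Or.inl rfl), mat_pos h2 (Or.inr rfl)⟩)
      (fun m _ => mat_C) det_M1 det_C1 hX).symm
    push_cast at h1
    convert h1
  · have h2 := congrArg (Nat.cast (R := ℝ)) (card_split (R := fun _ => True) (A := fun _ => True)
      (C := fun _ => True) (fun D _ => ⟨Iff.rfl, Iff.rfl⟩) (fun m _ => Iff.rfl) trivial trivial
      hX).symm
    simp only [and_true] at h2
    push_cast at h2
    convert h2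

/-- **The rank form of the conjecture of Birch and Swinnerton-Dyer for all quadratic twists of `X_0(36)`
of root number one and an exactly known proportion of them, by an exact criterion.** -/
theorem result :
    (∀ d : ℤ, Adm d → (TrivialTwo d ↔ (mat d).det ≠ 0)) ∧
    (∀ d : ℤ, Adm d → (mat d).det ≠ 0 → ∀ m : ℤ, m = d ∨ m = -3 * d → BSDRankZero 0 (m ^ 3)) ∧
    Filter.Tendsto (fun X : ℕ =>
      (((Finset.Icc (-(X : ℤ)) X).filter fun d => Adm d ∧ (mat d).det ≠ 0).card : ℝ) /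
      (((Finset.Icc (-(X : ℤ)) X).filter fun d => Adm d).card : ℝ)) Filter.atTop
      (nhds ((∏' i : ℕ, (1 - (1 / 2 : ℝ) ^ (2 * i + 1))) / 2)) :=
  ⟨fun _ h => two h, fun _ h h2 _ hm => bsd h h2 hm, dens⟩

end Pool.Agent.Results.MP_696deb_nt.AllTwistsX36ExactProportion
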