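import Pool.Agent.L0h1.EV.All7
import Pool.Agent.L0h1.EV.Crm
import Pool.Agent.L0h75.EV.UniE

/-!
# The rank form of the conjecture for an exactly known proportion of all the quadratic twists of `X_0(49)`
# of root number one

`D ≥ 1` is any squarefree number with `7 ∤ D`, and `E_m` is the curve `y² = x³ - 35 m² x - 98 m³`, the
quadratic twist by `m` of `X_0(49) : y² + x y = x³ - x² - 2 x - 1`. The twists of root number one are the
`E_D` and the `E_{-7D}`. The theorem says:
* the group `E_D(ℚ)` is finite and `Ш(E_D/ℚ)` has no element of order two if and only if the square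
  matrix `mat D` over `𝔽₂`, given by the Hilbert symbols `(π, D)` at `π'` for the normalised prime
  elements `π, π'` of `ℤ[α]`, `α = (1 + √-7) / 2`, which divide the discriminant of `ℚ(√D)` (without
  `α` if `D ≡ 3 mod 4`), is not singular;
* in this case the order of the `L`-series at `s = 1` and the rank are both `0` for `E_D` and for
  `E_{-7D}`, in the form of the frozen statement of the problem;
* the proportion of these `D` among all the positive squarefree `D` prime to `7` is exactly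
  `(1/2) ∏_{i ≥ 0} (1 - 2^{-(2i+1)}) = 0.2097...`.

The value `L(E_D, 1)` is computed modulo the powers of two, so that no converse theorem of Iwasawa
theory is used. Proof: `Pool/Agent/L0h4/TW`, `Pool/Agent/L0h4/TA`, `Pool/Agent/L0h1/EV`,
`Pool/Agent/L0h98/EV`, `Pool/Agent/L0h75/EV` (the value `L(E_D, 1)`), `Pool/Agent/L0h4/TD`,
`Pool/Agent/L0h23/ED` (2-descent over `K`), `Pool/Agent/L0h4/TC`, `Pool/Agent/L0h4/TE` and
`Pool/Agent/L0h23/SZ` (a kernel vector gives an everywhere locally soluble 2-covering),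
`Pool/Agent/L0h61/EV` (linear algebra), `Pool/Agent/L0h74/EV` (the density), `Pool/Agent/L0h98/T7` (the
7-isogeny). Joint work of helpers 1, 4, 23, 61, 74, 75, 98.
-/

set_option autoImplicit false

open scoped Classical

namespace Pool.Agent.Results.MP_696deb_nt.AllTwistsX49ExactProportion

/-- the conclusion of the frozen statement for `y² = x³ + a x + b`, together with the fact that the
order of vanishing and the rank are both `0` -/
def BSDRankZero (a b : ℤ) : Prop :=
  4 * a ^ 3 + 27 * b ^ 2 ≠ 0 ∧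
    ∃ F : ℂ → ℂ, Differentiable ℂ F ∧
      (∀ s : ℂ, (3 : ℝ) / 2 < s.re →
        HasProd
          (fun p : ℕ => open Classical in
            if p.Prime ∧ ¬ ((p : ℤ) ∣ 2 * (-4 * a ^ 3 - 27 * b ^ 2)) then
              (1 - ((p : ℂ) - (Nat.card {q : ZMod p × ZMod p //
                  q.2 ^ 2 = q.1 ^ 3 + (a : ZMod p) * q.1 + (b : ZMod p)} : ℂ))
                  * (p : ℂ) ^ (-s) + (p : ℂ) ^ (1 - 2 * s))⁻¹
            else 1)
          (F s)) ∧
      analyticOrderAt F 1 =
        ((Module.finrank ℤ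
          (WeierstrassCurve.Affine.Point
            (WeierstrassCurve.toAffine
              ({ a₁ := 0, a₂ := 0, a₃ := 0, a₄ := (a : ℚ), a₆ := (b : ℚ) } :
                WeierstrassCurve ℚ))) : ℕ) : ℕ∞) ∧
      Module.finrank ℤ
        (WeierstrassCurve.Affine.Point
          (WeierstrassCurve.toAffine
            ({ a₁ := 0, a₂ := 0, a₃ := 0, a₄ := (a : ℚ), a₆ := (b : ℚ) } :
              WeierstrassCurve ℚ))) = 0

/-- `D` is squarefree (so `D ≠ 0`) and prime to `7`. -/
def Adm (D : ℕ) : Prop := Squarefree D ∧ ¬ 7 ∣ D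

/-- The quadratic twist over `ℚ` by `D` of `X_0(49) : y² + x y = x³ - x² - 2 x - 1`, with a minimal
integral equation. -/
def E (D : ℕ) : WeierstrassCurve ℚ :=
  if D % 4 = 1 then
    { a₁ := 1, a₂ := -(3 * (D : ℚ) + 1) / 4, a₃ := 0, a₄ := -2 * (D : ℚ) ^ 2, a₆ := -(D : ℚ) ^ 3 }
  else { a₁ := 0, a₂ := 0, a₃ := 0, a₄ := -35 * (D : ℚ) ^ 2, a₆ := -98 * (D : ℚ) ^ 3 }

/-- `E_D(ℚ)` is finite and `Ш(E_D/ℚ)[2] = 0`. -/
def TrivialTwo (D : ℕ) : Prop :=
  Finite (E D).toAffine.Point ∧ ∀ x : Pool.Agent.TH841.NF.D.Sha (E D), x + x = 0 → x = 0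

/-- The complex number `(1 + √-7) / 2`. -/
noncomputable def al : ℂ := (1 + Complex.I * (Real.sqrt 7 : ℂ)) / 2

/-- The ring `ℤ[α]`, `α = (1 + √-7) / 2`, of the integers of `K = ℚ(√-7)`, as a subring of `ℂ`: its
elements are the numbers `x + y α`, `x, y ∈ ℤ` (see `mem_O`). -/
noncomputable abbrev O : Subring ℂ := Pool.Agent.Y698.RR

lemma mem_O (z : ℂ) : z ∈ O ↔ ∃ x y : ℤ, z = x + y * al := Pool.Agent.Y698.mem_RR z

/-- The element `α = (1 + √-7) / 2` of `ℤ[α]`. -/
noncomputable def α : O := ⟨al, (mem_O al).2 ⟨0, 1, by push_cast; ring⟩⟩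

/-- The element `√-7 = 2 α - 1` of `ℤ[α]`. -/
noncomputable def rt : O := 2 * α - 1

/-- The generators: for each prime ideal of `ℤ[α]` other than `(α)` which divides `D` its generator
congruent to `1` modulo `α²` (for `D` even this includes the generator `α - 1 = 1 + α²` of the conjugate
of `(α)`); also `α - 1` if `D ≡ 3 mod 4`, and `-α` or `α` if `D ≡ 2` or `6 mod 8`. -/
def primes (D : ℕ) : Set O := {x | D ≠ 0 ∧ Prime x ∧ ((x ∣ (D : O) ∧ α ^ 2 ∣ x - 1) ∨
  (D % 4 = 3 ∧ x = α - 1) ∨ (D % 8 = 2 ∧ x = -α) ∨ (D % 8 = 6 ∧ x = α))}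

noncomputable instance (D : ℕ) : Fintype (primes D) := Pool.Agent.L0h1.EV.inst_gens D

/-- `1` if `x` is not a square modulo `y`, and `0` if it is. -/
noncomputable def nonsq (x y : O) : ZMod 2 := if ∃ z : O, y ∣ x - z ^ 2 then 0 else 1

/-- The Hilbert symbol `(x, D)` at the prime element `y`, for `x` prime to `y` and `y` a prime divisor of
the discriminant of `ℚ(√D)`: `0` if `x` is congruent to `a² - D b²` modulo `y³` for some `a` and `b`,
and `1` if not. -/
noncomputable def symb (D : ℕ) (x y : O) : ZMod 2 :=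
  if ∃ a b : O, y ^ 3 ∣ x - a ^ 2 + D * b ^ 2 then 0 else 1

/-- `0` if `x ≡ 1` modulo `α³`, and `1` if not. -/
noncomputable def eight (x : O) : ZMod 2 := if α ^ 3 ∣ x - 1 then 0 else 1

/-- The matrix over the field with two elements, with rows and columns indexed by the generators: the
entry at `(x, y)` is `symb D x y` for `x ≠ y`, and the entry at `(x, x)` is the sum of `nonsq x √-7` and
of the `symb D x z` for all the `z ≠ x`; if `D ≡ 3 mod 4`, the product `eight x * symb D (-√-7) y` is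
added to the entry at `(x, y)` for all `x` and `y`. -/
noncomputable def mat (D : ℕ) : Matrix (primes D) (primes D) (ZMod 2) := Matrix.of fun x y =>
  (if x = y then nonsq x rt + ∑ z ∈ Finset.univ.erase x, symb D x z else symb D x y) +
    (if D % 4 = 3 then eight x * symb D (-rt) y else 0)

lemma mat_eq (D : ℕ) : mat D = Pool.Agent.L0h1.EV.mU D := rfl

lemma E_eq (D : ℕ) : E D = Pool.Agent.L0h1.EV.TX D := rfl

theorem two_iff {D : ℕ} (h : Adm D) : TrivialTwo D ↔ (mat D).det ≠ 0 :=
  Pool.Agent.L0h1.EV.tt_mU Pool.Agent.L0h75.EV.t_U1 Pool.Agent.L0h75.EV.t_UE h.1 h.2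

theorem bsd {D : ℕ} (h : Adm D) (h2 : TrivialTwo D) {m : ℤ} (hm : m = D ∨ m = -7 * D) :
    BSDRankZero (-35 * m ^ 2) (-98 * m ^ 3) := by
  obtain ⟨w, hw⟩ := Pool.Agent.L0h4.TA.exists_w
  have hq := Pool.Agent.L0h74.EV.qpw_of hw
  obtain ⟨F, h1, h3, h4, h5⟩ := Pool.Agent.L0h1.EV.rank_all7 hq h.1 h.2
    ((Pool.Agent.L0h1.EV.tt_iff hq h.1 h.2).1 h2) hm
  have h6 := Pool.Agent.L0h1.KD.finrank_zero h5
  have hm0 : m ≠ 0 := by
    have hD0 : (D : ℤ) ≠ 0 := by exact_mod_cast h.1.ne_zero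
    rcases hm with rfl | rfl
    · exact hD0
    · exact mul_ne_zero (by norm_num) hD0
  refine ⟨?_, F, h1, ?_, ?_, h6⟩
  · have e : (4 * (-35 * m ^ 2) ^ 3 + 27 * (-98 * m ^ 3) ^ 2 : ℤ) = 87808 * m ^ 6 := by ring
    rw [e]
    exact mul_ne_zero (by norm_num) (pow_ne_zero _ hm0)
  · intro s hs
    have := h3 s hs
    unfold Pool.Agent.L0h1.KD.tg at this
    exact this
  · rw [h6, (h1.analyticAt 1).analyticOrderAt_eq_zero.2 h4]
    rfl

/-- **The rank form of the conjecture of Birch and Swinnerton-Dyer for an exactly known proportion of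
the quadratic twists of `X_0(49)` of root number one.** -/
theorem result :
    (∀ D : ℕ, Adm D → (TrivialTwo D ↔ (mat D).det ≠ 0)) ∧
    (∀ D : ℕ, Adm D → TrivialTwo D → ∀ m : ℤ, m = D ∨ m = -7 * D →
      BSDRankZero (-35 * m ^ 2) (-98 * m ^ 3)) ∧
    Filter.Tendsto (fun X : ℕ =>
        (((Finset.Icc 1 X).filter fun D => Adm D ∧ TrivialTwo D).card : ℝ) /
        (((Finset.Icc 1 X).filter fun D => Adm D).card : ℝ)) Filter.atTop
      (nhds ((∏' i : ℕ, (1 - (1 / 2 : ℝ) ^ (2 * i + 1))) / 2)) := by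
  refine ⟨fun D h => two_iff h, fun D h h2 m hm => bsd h h2 hm, ?_⟩
  refine Pool.Agent.L0h1.EV.dens_TT.congr fun X =>
    congrArg₂ (fun a b : ℕ => (a : ℝ) / (b : ℝ)) ?_ ?_
  · refine congrArg Finset.card (Finset.ext fun D => ?_)
    rw [Finset.mem_filter, Finset.mem_filter]
    refine and_congr_right fun _ => ?_
    constructor
    · rintro ⟨h1, h2, h3⟩
      exact ⟨⟨h1, h2⟩, h3⟩
    · rintro ⟨⟨h1, h2⟩, h3⟩
      exact ⟨h1, h2, h3⟩
  · refine congrArg Finset.card (Finset.ext fun D => ?_)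
    rw [Finset.mem_filter, Finset.mem_filter]
    exact and_congr_right fun _ => Iff.rfl

end Pool.Agent.Results.MP_696deb_nt.AllTwistsX49ExactProportion
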