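import Pool.Agent.L0h1.F3R.All
import Pool.Agent.L0h86.F3.Fin

/-!
# The rank form of the conjecture for an exactly known proportion of the positive quadratic twists of
# `X_0(36)` of root number one

`E_m` is the curve `y² = x³ + m³`, the quadratic twist by `m` of `X_0(36) : y² = x³ + 1`, with complex
multiplication by `ℤ[ω]`, `ω² + ω + 1 = 0`. Here `2` is inert, and the curves are supersingular at `2`
after a field extension. `D > 1` is squarefree, prime to `3` and congruent to `1` modulo `4` (numerically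
these are the positive twists prime to `3` with root number one). The theorem says:
* the group `E_D(ℚ)` is finite and `Ш(E_D/ℚ)` has no element of order two if and only if the square
  matrix `mat D` over `𝔽₂`, given by the quadratic residue symbols between the normalised prime elements
  of `ℤ[ω]` which divide `D`, is not singular;
* in this case the order of the `L`-series at `s = 1` and the rank are both `0` for `E_D` and for the
  `3`-isogenous curve `E_{-3D}`, in the form of the frozen statement of the problem;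
* the proportion of these `D` among all the `D` is exactly `(1/2) ∏_{i ≥ 0} (1 - 2^{-(2i+1)}) = 0.2097...`.

The value `L(E_D, 1)` is computed modulo the prime over two; no converse theorem of Iwasawa theory is
used. Proof: `Pool/Agent/L0h86/F3`, `Pool/Agent/L0h80/F3`, `Pool/Agent/L0h4/T3` (the value and the
Euler product), `Pool/Agent/L0h23/{FD,FR}` (2-descent, reciprocity), `Pool/Agent/L0h4/T3`,
`Pool/Agent/L0h61/T3` (the converse of the descent, linear algebra), `Pool/Agent/L0h74/T3`,
`Pool/Agent/L0h86/F3` (the density), `Pool/Agent/L0h1/F3R` (rank form, 3-isogeny). Joint work of helpers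
1, 4, 23, 61, 74, 80, 86.
-/

set_option autoImplicit false

open scoped Classical

namespace Pool.Agent.Results.MP_696deb_nt.TwistsX36ExactProportion

/-- the conclusion of the frozen statement for `y² = x³ + a x + b`, together with the fact that the
order of vanishing and the rank are both `0` -/
def BSDRankZero (a b : ℤ) : Prop :=
  4 * a ^ 3 + 27 * b ^ 2 ≠ 0 ∧
    ∃ F : ℂ → ℂ, Differentiable ℂ F ∧
      (∀ s : ℂ, (3 : ℝ) / 2 < s.re →
        HasProd
          (fun p : ℕ => open Classical in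
            if p.Prime ∧ ¬ ((p : ℤ) ∣ 2 * (-4 * a ^ 3 - 27 * b ^ 2)) then
              (1 - ((p : ℂ) - (Nat.card {q : ZMod p × ZMod p //
                  q.2 ^ 2 = q.1 ^ 3 + (a : ZMod p) * q.1 + (b : ZMod p)} : ℂ))
                  * (p : ℂ) ^ (-s) + (p : ℂ) ^ (1 - 2 * s))⁻¹
            else 1)
          (F s)) ∧
      analyticOrderAt F 1 =
        ((Module.finrank ℤ
          (WeierstrassCurve.Affine.Point
            (WeierstrassCurve.toAffine
              ({ a₁ := 0, a₂ := 0, a₃ := 0, a₄ := (a : ℚ), a₆ := (b : ℚ) } :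
                WeierstrassCurve ℚ))) : ℕ) : ℕ∞) ∧
      Module.finrank ℤ
        (WeierstrassCurve.Affine.Point
          (WeierstrassCurve.toAffine
            ({ a₁ := 0, a₂ := 0, a₃ := 0, a₄ := (a : ℚ), a₆ := (b : ℚ) } :
              WeierstrassCurve ℚ))) = 0

/-- `D > 1` is squarefree, prime to `3` and congruent to `1` modulo `4`. -/
def Adm (D : ℕ) : Prop := 1 < D ∧ Squarefree D ∧ D % 4 = 1 ∧ ¬ 3 ∣ D

/-- The curve `y² = x³ + D³`, the quadratic twist by `D` of `y² = x³ + 1`. -/
def E (D : ℕ) : WeierstrassCurve ℚ := { a₁ := 0, a₂ := 0, a₃ := 0, a₄ := 0, a₆ := (D : ℚ) ^ 3 }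

/-- `E_D(ℚ)` is finite and `Ш(E_D/ℚ)[2] = 0`. -/
def TrivialTwo (D : ℕ) : Prop :=
  Finite (E D).toAffine.Point ∧ ∀ x : Pool.Agent.TH841.NF.D.Sha (E D), x + x = 0 → x = 0

/-- The cube root of unity `(-1 + √-3) / 2`. -/
noncomputable def om : ℂ := ⟨-1 / 2, Real.sqrt 3 / 2⟩

/-- The ring `ℤ[ω]` of the integers of `K = ℚ(√-3)`, as a subring of `ℂ`: its elements are the numbers
`x + y ω`, `x, y ∈ ℤ` (see `mem_O`). -/
noncomputable abbrev O : Subring ℂ := Pool.Agent.Y696.eis

lemma mem_O (z : ℂ) : z ∈ O ↔ ∃ x y : ℤ, z = x + y * om := Iff.rfl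

/-- The element `ω` of `ℤ[ω]`. -/
noncomputable def ω : O := ⟨om, (mem_O om).2 ⟨0, 1, by push_cast; ring⟩⟩

/-- The element `√-3 = 1 + 2 ω` of `ℤ[ω]`. -/
noncomputable def rt : O := ((1 : ℤ) : O) + ((2 : ℤ) : O) * ω

/-- The complex conjugation of `ℤ[ω]`. -/
noncomputable def conj (z : O) : O := ⟨(starRingEnd ℂ) z, Pool.Agent.Y696.conj_mem z.2⟩

/-- The generators of the prime ideals of `ℤ[ω]` which divide `D`: each of these ideals has exactly one
generator `π` congruent to `1` modulo `2 √-3`. -/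
def primes (D : ℕ) : Set O := {π | D ≠ 0 ∧ Prime π ∧ π ∣ (D : O) ∧ 2 * rt ∣ π - 1}

noncomputable instance (D : ℕ) : Fintype (primes D) := Pool.Agent.L0h86.F3.inst_pset D

/-- `1` if `x` is not a square modulo `y`, and `0` if it is. -/
noncomputable def nonsq (x y : O) : ZMod 2 := if ∃ z : O, y ∣ x - z ^ 2 then 0 else 1

/-- `1` if `√-3 (D / y)` is not a square modulo `y`, and `0` if it is, for `y` dividing `D`. -/
noncomputable def diag (D : ℕ) (y : O) : ZMod 2 :=
  if ∃ u z : O, (D : O) = y * u ∧ y ∣ rt * u - z ^ 2 then 0 else 1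

/-- The matrix over the field with two elements, with rows and columns indexed by the generators: the
entry at `(x, x)` is `diag D x`, and the entry at `(x, y)` for `x ≠ y` is `nonsq y x`, to which
`nonsq (-1) x` is added if `y` is the conjugate of `x`. -/
noncomputable def mat (D : ℕ) : Matrix (primes D) (primes D) (ZMod 2) := Matrix.of fun x y =>
  if x = y then diag D x else nonsq y x + if (y : O) = conj x then nonsq (-1) x else 0

lemma mat_eq (D : ℕ) : mat D = Pool.Agent.L0h86.F3.mM D := rfl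

lemma E_eq (D : ℕ) : E D = Pool.Agent.L0h86.F1.WM ℚ D := rfl

lemma adm_iff {D : ℕ} : Adm D ↔ 1 < D ∧ Pool.Agent.L0h86.F1.AdmM D :=
  and_congr_right fun _ => ⟨fun h => ⟨h.1, h.2.1, h.2.2⟩, fun h => ⟨h.sf, h.m4, h.n3⟩⟩

theorem two_iff {D : ℕ} (h : Adm D) : TrivialTwo D ↔ (mat D).det ≠ 0 :=
  Pool.Agent.L0h1.F3R.tt_mM (adm_iff.1 h).2 (by have := h.1; omega)

theorem bsd {D : ℕ} (h : Adm D) (h2 : TrivialTwo D) {m : ℤ} (hm : m = D ∨ m = -3 * D) :
    BSDRankZero 0 (m ^ 3) := by
  obtain ⟨F, h1, h3, h4, h5⟩ := Pool.Agent.L0h1.F3R.rank_M3 (adm_iff.1 h).2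
    (by have := h.1; omega) ((two_iff h).1 h2) hm
  have h6 := Pool.Agent.L0h1.KD.finrank_zero h5
  have hm0 : m ≠ 0 := by
    have hD0 : (D : ℤ) ≠ 0 := by exact_mod_cast h.2.1.ne_zero
    rcases hm with rfl | rfl
    · exact hD0
    · exact mul_ne_zero (by norm_num) hD0
  refine ⟨?_, F, h1, ?_, ?_, h6⟩
  · have e : (4 * (0 : ℤ) ^ 3 + 27 * (m ^ 3) ^ 2 : ℤ) = 27 * m ^ 6 := by ring
    rw [e]
    exact mul_ne_zero (by norm_num) (pow_ne_zero _ hm0)
  · intro s hs
    have := h3 s hs
    unfold Pool.Agent.L0h1.KD.tg at this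
    exact this
  · rw [h6, (h1.analyticAt 1).analyticOrderAt_eq_zero.2 h4]
    rfl

/-- **The rank form of the conjecture of Birch and Swinnerton-Dyer for an exactly known proportion of
the curves `y² = x³ + D³` and `y² = x³ - 27 D³`, `D ≡ 1 mod 4`.** -/
theorem result :
    (∀ D : ℕ, Adm D → (TrivialTwo D ↔ (mat D).det ≠ 0)) ∧
    (∀ D : ℕ, Adm D → TrivialTwo D → ∀ m : ℤ, m = D ∨ m = -3 * D → BSDRankZero 0 (m ^ 3)) ∧
    Filter.Tendsto (fun X : ℕ =>
        (((Finset.Icc 1 X).filter fun D => Adm D ∧ TrivialTwo D).card : ℝ) /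
        (((Finset.Icc 1 X).filter fun D => Adm D).card : ℝ)) Filter.atTop
      (nhds ((∏' i : ℕ, (1 - (1 / 2 : ℝ) ^ (2 * i + 1))) / 2)) := by
  refine ⟨fun D h => two_iff h, fun D h h2 m hm => bsd h h2 hm, ?_⟩
  refine (Pool.Agent.L0h86.F3.densM (R := fun D => TrivialTwo D) fun D h1 h2 =>
    two_iff (adm_iff.2 ⟨h1, h2⟩)).congr fun X =>
      congrArg₂ (fun a b : ℕ => (a : ℝ) / (b : ℝ)) ?_ ?_
  · refine congrArg Finset.card (Finset.ext fun D => ?_)
    rw [Finset.mem_filter, Finset.mem_filter]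
    exact and_congr_right fun _ => and_congr_left fun _ => adm_iff.symm
  · refine congrArg Finset.card (Finset.ext fun D => ?_)
    rw [Finset.mem_filter, Finset.mem_filter]
    exact and_congr_right fun _ => adm_iff.symm

end Pool.Agent.Results.MP_696deb_nt.TwistsX36ExactProportion
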